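import Pool.Agent.KBT.Th

set_option autoImplicit false

open Pool.Agent.KBT.C Cardinal

namespace Pool.Agent.Results.MP_d72c81_ag.ConcreteRigidity

/-- Rational algebraic K-theory of fields `F` of characteristic zero and its part of weight `w`,
`K_(n+1)(F)_ℚ^(w)`, defined by the primitive elements of the homology of the general linear groups
and the operation `ψ²` (`KQ F n w`). For all `n` and `w` rigidity (no new classes for extensions of
algebraically closed fields) is equivalent to a bound for the number of classes over one ample
field such as `ℂ`, `ℝ`, `ℚ_p` or any other complete field, to the triviality or smallness of the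
orbits of the Galois group of `ℂ`, to the constancy of the classes over the function fields of all
complex curves and over the field of Laurent series over one field. The vanishing for all fields of
characteristic zero is rigidity and the vanishing for the algebraic numbers. -/
theorem result (n w : ℕ) :
    List.TFAE [Rigid n w, FromAlgebraic n w, SmallNew ℂ n w, SmallNew ℝ n w, SmallAmple n w,
      GeneratedAmple n w, AutTrivial n w, SmallOrbits n w, CurvesConstant n w,
      LaurentConstant ℚ n w] ∧
    (FieldsVanish n w ↔ Rigid n w ∧ AlgVanish n w) ∧
    (∀ (K : Type) [Field K] [CharZero K], AmpleOrReal K → Large K →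
      (Rigid n w ↔ SmallNew K n w) ∧
      (FieldsVanish n w ↔ SmallOver K n w ∧ AlgVanish n w)) ∧
    (∀ (K : Type) [NontriviallyNormedField K] [CompleteSpace K] [CharZero K],
      AmpleOrReal K ∧ Large K ∧ Algebra.trdeg ℚ K = #K) ∧
    ∀ (k : Type) [Field k] [CharZero k], Rigid n w ↔ LaurentConstant k n w :=
  ⟨tfae_rigid n w, vanish_iff_rigid n w,
    fun K _ _ hK hL => ⟨rigid_iff_small n w K hK hL, vanish_iff_small n w K hK hL⟩,
    fun K _ _ _ => complete_ample K, fun k _ _ => rigid_iff_laurent' n w k⟩

end Pool.Agent.Results.MP_d72c81_ag.ConcreteRigidity
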