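import Pool.Agent.LGF.Main
import Pool.Agent.LGF.Defs2
import Pool.Agent.LGF.Prm

/-!
# MP_d72c81_ag: fillings over finite fields and the vanishing conjecture

`H(n, w; R)` is the group of cubes (`IsCube`) over `R[t_1, ..., t_n]` in the `w`-tuples of commuting
invertible matrices modulo boundaries (`IsBd`); for a field it is the rational motivic cohomology group
`H^(w-n)(R, ℚ(w))`. A bounded family of classes over rings `k i` is a class over the product `∏ k i`.

(1) Assume `H(n, w; algebraic numbers) = 0` (Borel's theorem, for `n ≠ w - 1`). Then, outside finitely many
characteristics, every bounded family of classes over finite fields `k i` generates bounded cyclic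
groups of order `≤ (card (k i)) ^ c`, and dies in `≤ c log (card (k i))` bounded steps.

(2) For every set `S` of primes which is not thin the following are equivalent: `H(n, w; F) = 0` for all
fields `F` of characteristic zero (for `n > w` this is the conjecture of Beilinson and Soulé for
fields); all bounded families over all fields of large characteristic are boundaries; the bounded
families over finite fields with characteristic in `S` and bounded degrees generate bounded
cyclic groups of order `p ^ o(1)`; they die in `o(log p)` bounded steps.

(3) The same for one class `z` over a finitely generated domain of characteristic zero: either it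
vanishes over the fraction field, and then over a localisation; or, on no localisation, its values at
points over finite fields with characteristic in `S` die in `o(log p)` bounded steps.

(4) The set of all primes is not thin.
-/

set_option autoImplicit false

open Pool.Agent.GSM.Plain Pool.Agent.LGF.Plain

namespace Pool.Agent.Results.MP_d72c81_ag.LogFillings

theorem result (n w : ℕ) (hw : 0 < w) :
    -- (1) the upper bound
    (Vanishes n w (AlgebraicClosure ℚ) → LogFillings n w) ∧
    -- (2) the threshold
    (∀ S : Set ℕ, ¬ Thin S → List.TFAE [
      ∀ (K : Type) [Field K] [CharZero K], Vanishes n w K,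
      FamiliesVanish n w,
      SmallCyclic n w S,
      SmallDies n w S]) ∧
    -- (3) the threshold for one class over a finitely generated domain
    (∀ S : Set ℕ, ¬ Thin S → ∀ (R : Type) [CommRing R] [IsDomain R] [CharZero R]
      [Algebra.FiniteType ℤ R] (z : Cls n w R), IsCube z → List.TFAE [
        GenericallyZero z,
        ∃ f : R, f ≠ 0 ∧ PointsVanish f z,
        ∃ f : R, f ≠ 0 ∧ PointsSmallDies S f z]) ∧
    -- (4)
    ¬ Thin {p : ℕ | p.Prime} :=
  ⟨Pool.Agent.LGF.main1 hw, fun _ hS => Pool.Agent.LGF.main5 hw hS,
    fun _ hS _ _ _ _ _ _ hz => Pool.Agent.LGF.main3 hS hz, Pool.Agent.LGF.not_thin_primes⟩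

end Pool.Agent.Results.MP_d72c81_ag.LogFillings
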