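import Pool.Agent.SPC.RawFin

/-!
# The nilpotence theorem for rational mixed Tate motives over fields of characteristic zero

`mot B` on `Fa B` (`Pool/Agent/SPC/Raw.lean`): the supercommutative differential ring of normalised
alternating cubes of rational finite correspondences from `Spec B` to the powers of the multiplicative
group. `Cx`: finite twisted complexes (cell modules), `El`: with an element. `NT K`: if an even closed
element of a finite twisted complex over `mot K` is exact modulo the augmentation ideal then a
tensor power of it is exact.
-/

noncomputable section

namespace Pool.Agent.Results.MP_d72c81_ag.MixedTate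

open Pool.Agent.SPC.Raw

universe u

theorem result :
    -- (1) from one point to another: the length `l` of the complexes and the points determine `N`
    (∀ {k : Type u} [Field k] [IsAlgClosed k] [CharZero k] {R : Type u} [CommRing R] [IsDomain R]
      [Algebra k R] [Algebra.FiniteType k R] {K : Type u} [Field K] [Algebra k K]
      (p q : R →ₐ[k] K) (l : ℕ), ∃ N : ℕ, ∀ P : Fin N → El (Fa R),
        (∀ j, EvenCycle (mot R) l (P j) ∧ ExactAt (mot K) (map (p : R →+* K)) (P j)) →
          ExactAt (mot K) (map (q : R →+* K)) (prod (mot R) N P)) ∧
    -- (2) the nilpotence theorem over one algebraically closed field implies it over all fields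
    (∀ {k : Type u} [Field k] [IsAlgClosed k] [CharZero k], NT k →
      ∀ {K : Type u} [Field K] [CharZero K], NT K) ∧
    -- (3) it holds if all even closed elements of augmentation zero are boundaries
    (∀ {k : Type u} [Field k] [CharZero k],
      (∀ a : Fa k, Par (mot k) false a → (mot k).d a = 0 → a ∅ = 0 →
        ∃ b, IsMot b ∧ (mot k).d b = a) → NT k) ∧
    -- (4) it implies that there are only two thick tensor ideals
    ∀ {K : Type u} [Field K] [CharZero K], NT K → ∀ M : Cx (Fa K), IsCx (mot K) M →
      Contractible (mot K) M ∨ ∀ X, IsCx (mot K) X → Thick (mot K) M X :=
  ⟨fun p q l => uniform p q l, fun h => nt_all h, fun h => nt_of_even h,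
    fun h M hM => dichotomy h M hM⟩

end Pool.Agent.Results.MP_d72c81_ag.MixedTate
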