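import Pool.Agent.NCV.Main
import Pool.Agent.NCV.MainE

/-!
# Beilinson-Soule vanishing up to nilpotents

Problem MP_d72c81_ag. The model of rational motivic cohomology is the one of Grayson and Suslin:
`H(n, w; R)` is the group of cubes of dimension `n` of families of `w` commuting invertible matrices
over `R[t_1, …, t_n]` (free modules with commuting automorphisms, direct sum Grothendieck group,
tensored with `ℚ`), modulo homotopy; that is, the `n`-th homotopy group of the simplicial
abelian group `K_0^⊕(R[Δ^•]; G_m^{∧ w}) ⊗ ℚ`. For a field `K` it is
`H^{w - n}(K, ℚ(w)) = CH^w(K, w + n) ⊗ ℚ` (Suslin, On the Grayson spectral sequence, 2003;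
projective modules over `K[t_1, …, t_n]` are free).

`IsCube x` says that `x` represents an element of `H(n, w; R)`, `IsBd x` that this element is zero,
`Vanishes n w R` that `H(n, w; R) = 0`, `prod fun j => emb j (x j)` is the external product, `pow N x`
the `N`-th external power. A class over a product of fields `K i` is a family of classes over the
`K i` with matrices of bounded size and entries of bounded degree.
-/

noncomputable section

namespace Pool.Agent.Results.MP_d72c81_ag.NilpotentClasses

open Pool.Agent.GSM.Plain Pool.Agent.NCV.Plain

universe u v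

/-- Let `k` be algebraically closed.
(1) `k` of characteristic zero, `R` a finitely generated `k`-algebra with connected spectrum: there is `N`
such that for all fields `K` over `k` and all `K`-points `p`, `q` of `R` all external products of `N`
differences `p_* x - q_* x` vanish.
(2) `k` of characteristic zero, `K` a field over `k`: every element of `H(n, w; K)` is a constant element
plus a nilpotent element.
(3) The same for families, with a common exponent: for a class `x` of weight `w > 0` over a product of fields
`K i` of characteristic zero, with algebraically closed subfields `k i`, there are a class `y` over the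
product of the `k i` and `N` such that the `N`-th power of `x - y` vanishes; the `N`-th power of `x` vanishes
if `H(n, w; AlgebraicClosure ℚ) = 0`.
(4) `k` of any characteristic, `R` free of rank `e` over `k[t_1, …, t_r][1/g]`, `g` of degree at most `m`,
`N = e (m + 1)`: there are `k`-points `q_1, …, q_N` of `R` such that for all points `p` of `R` over all fields
over `k` and all classes `x_1, …, x_N` over `R` the sum over all permutations `π` of the external products
of the `p_* x_j - q_{π j *} x_j` vanishes; if the `H(n_j, w_j; k)` vanish, so does the external product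
of the `p_* x_j`. -/
theorem result :
    (∀ (k : Type u) [Field k] [IsAlgClosed k] [CharZero k],
      (∀ (R : Type v) [CommRing R] [ConnectedSpace (PrimeSpectrum R)] [Algebra k R]
        [Algebra.FiniteType k R], ∃ N : ℕ, ∀ (K : Type u) [Field K] [Algebra k K]
        (p q : R →ₐ[k] K), Link (p : R →+* K) (q : R →+* K) N) ∧
      (∀ (K : Type u) [Field K] [Algebra k K] (n w : ℕ)
        (x : F (Fin w) (MvPolynomial (Fin n) K)), IsCube x →
        ∃ y : F (Fin w) (MvPolynomial (Fin n) k), IsCube y ∧ ∃ N : ℕ,
          IsBd (pow N (x - base (algebraMap k K) y)))) ∧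
    (∀ (ι : Type) (K : ι → Type) [∀ i, Field (K i)] [∀ i, CharZero (K i)] (n w : ℕ), 0 < w →
      ∀ x : F (Fin w) (MvPolynomial (Fin n) (∀ i, K i)), IsCube x →
      (∀ (k : ι → Type) [∀ i, Field (k i)] [∀ i, IsAlgClosed (k i)] [∀ i, Algebra (k i) (K i)],
        ∃ y : F (Fin w) (MvPolynomial (Fin n) (∀ i, k i)), IsCube y ∧ ∃ N : ℕ,
          IsBd (pow N (x - base (algebraMap (∀ i, k i) (∀ i, K i)) y))) ∧
      (Vanishes n w (AlgebraicClosure ℚ) → ∃ N : ℕ, IsBd (pow N x))) ∧
    (∀ (k : Type u) [Field k] [IsAlgClosed k] (r e m : ℕ) (g : MvPolynomial (Fin r) k), g ≠ 0 →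
      g.totalDegree ≤ m → ∀ (R : Type v) [CommRing R] [Algebra k R], FreeAway g e R →
      ∃ q : Fin (e * (m + 1)) → (R →ₐ[k] k), ∀ (K : Type u) [Field K] [Algebra k K]
        (p : R →ₐ[k] K), (Root (p : R →+* K) fun i => (algebraMap k K).comp (q i : R →+* k)) ∧
          Kills k (p : R →+* K) (e * (m + 1))) :=
  ⟨fun k _ _ _ => ⟨fun R _ _ _ _ => uniform_points k R, fun K _ _ n w x hx => nilpotent n w x hx⟩,
    fun _ K _ _ _ _ hw x hx => ⟨fun k _ _ _ => uniform0 K k hw x hx,
      fun hQ => uniform_zero0 K hw hQ x hx⟩,
    fun k _ _ _ _ _ g hg hm R _ _ hR => effective k g hg hm R hR⟩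

end Pool.Agent.Results.MP_d72c81_ag.NilpotentClasses
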